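import Mathlib

set_option autoImplicit false

namespace Pool.Agent.Helper72.SQ

section

variable {D : Type} [Fintype D] [DecidableEq D]

/-- The reduced words of length at most `l`. -/
abbrev RW (inv : D → D) (l : ℕ) : Type :=
  {w : List D // w.length ≤ l ∧ w.IsChain (fun a b => b ≠ inv a)}

instance finite_RW (inv : D → D) (l : ℕ) : Finite (RW inv l) :=
  ((List.finite_length_le D l).subset fun _ h => h.1).to_subtype

/-- Multiplication with a letter on the left. -/
def stepW (inv : D → D) (e : D) (w : List D) : List D :=
  if w.head? = some (inv e) then w.tail else e :: w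

/-- The words that can be multiplied by `e`. -/
def Dom (inv : D → D) (l : ℕ) (e : D) (w : List D) : Prop :=
  w.head? = some (inv e) ∨ (w.length < l ∧ w.head? ≠ some (inv e))

theorem stepW_mem {inv : D → D} (h1 : ∀ d, inv (inv d) = d) {l : ℕ} {e : D} {w : List D}
    (hw : w.length ≤ l ∧ w.IsChain (fun a b => b ≠ inv a)) (hd : Dom inv l e w) :
    ((stepW inv e w).length ≤ l ∧ (stepW inv e w).IsChain (fun a b => b ≠ inv a)) ∧
      Dom inv l (inv e) (stepW inv e w) ∧ stepW inv (inv e) (stepW inv e w) = w := by
  by_cases h : w.head? = some (inv e)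
  · obtain ⟨w', rfl⟩ : ∃ w', w = inv e :: w' := by
      cases w with
      | nil => simp at h
      | cons a w' => exact ⟨w', by simpa using h⟩
    have hs : stepW inv e (inv e :: w') = w' := by simp [stepW]
    rw [hs]
    have hlen : w'.length < l := by simpa using hw.1
    have hhead : w'.head? ≠ some e := by
      intro h3
      cases w' with
      | nil => simp at h3
      | cons b w'' =>
        have := hw.2
        rw [List.isChain_cons_cons] at this
        apply this.1
        rw [h1]
        simpa using h3
    refine ⟨⟨hlen.le, ?_⟩, Or.inr ⟨hlen, by rwa [h1]⟩, ?_⟩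
    · cases w' with
      | nil => simp
      | cons b w'' =>
        have := hw.2
        rw [List.isChain_cons_cons] at this
        exact this.2
    · unfold stepW
      rw [h1, if_neg hhead]
  · have hs : stepW inv e w = e :: w := by simp [stepW, h]
    rw [hs]
    have hlen : w.length < l := by
      rcases hd with h3 | h3
      · exact absurd h3 h
      · exact h3.1
    refine ⟨⟨by simpa using hlen, ?_⟩, Or.inl (by simp [h1]), ?_⟩
    · cases w with
      | nil => simp
      | cons b w' =>
        rw [List.isChain_cons_cons]
        exact ⟨fun h3 => h (by simp [h3]), hw.2⟩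
    · simp [stepW, h1]

/-- The partial permutation. -/
noncomputable def pe (inv : D → D) (h1 : ∀ d, inv (inv d) = d) (l : ℕ) (e : D) :
    {w : RW inv l // Dom inv l e w.1} ≃ {w : RW inv l // Dom inv l (inv e) w.1} where
  toFun w := ⟨⟨stepW inv e w.1.1, (stepW_mem h1 w.1.2 w.2).1⟩, (stepW_mem h1 w.1.2 w.2).2.1⟩
  invFun w := ⟨⟨stepW inv (inv e) w.1.1, (stepW_mem h1 w.1.2 w.2).1⟩, by
    have := (stepW_mem h1 w.1.2 w.2).2.1
    rwa [h1] at this⟩
  left_inv w := by
    apply Subtype.ext
    apply Subtype.ext
    exact (stepW_mem h1 w.1.2 w.2).2.2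
  right_inv w := by
    apply Subtype.ext
    apply Subtype.ext
    have := (stepW_mem h1 w.1.2 w.2).2.2
    rw [h1] at this
    exact this

open Classical in
/-- There is a finite group generated by the darts, the opposite dart being the inverse, in which no
short reduced word is trivial. -/
theorem exists_group (inv : D → D) (h1 : ∀ d, inv (inv d) = d)
    (h2 : ∀ d, inv d ≠ d) (l : ℕ) :
    ∃ (G : Type) (_ : Group G) (_ : Fintype G) (g : D → G), (∀ d, g (inv d) = (g d)⁻¹) ∧
      ∀ w : List D, w ≠ [] → w.length ≤ l → w.IsChain (fun a b => b ≠ inv a) →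
        (w.map g).prod ≠ 1 := by
  set f := Fintype.equivFin D with hf
  have hfin : ∀ e, Finite ↑{x : RW inv l | Dom inv l e x.1} := fun e => Set.toFinite _
  set σ : D → Equiv.Perm (RW inv l) := fun d => if f d < f (inv d) then
    (pe inv h1 l d).extendSubtype else (pe inv h1 l (inv d)).extendSubtype⁻¹ with hσ
  have hinv : ∀ d, σ (inv d) = (σ d)⁻¹ := by
    intro d
    have hne : f d ≠ f (inv d) := fun h => h2 d (f.injective h).symm
    by_cases h : f d < f (inv d)
    · have h3 : ¬ f (inv d) < f (inv (inv d)) := by
        rw [h1]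
        exact not_lt.2 h.le
      simp only [hσ, if_pos h, if_neg h3]
      congr 1
      have : ∀ d', d' = d → (pe inv h1 l d').extendSubtype = (pe inv h1 l d).extendSubtype := by
        rintro d' rfl
        rfl
      exact this _ (h1 d)
    · have h3 : f (inv d) < f (inv (inv d)) := by
        rw [h1]
        exact lt_of_le_of_ne (not_lt.1 h) hne.symm
      simp only [hσ, if_pos h3, if_neg h, inv_inv]
  have hact : ∀ (d : D) (w : RW inv l), Dom inv l d w.1 → (σ d w).1 = stepW inv d w.1 := by
    intro d w hw
    by_cases h : f d < f (inv d)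
    · simp only [hσ, if_pos h]
      rw [Equiv.extendSubtype_apply_of_mem (pe inv h1 l d) w hw]
      rfl
    · have h3 := stepW_mem h1 w.2 hw
      have h4 : (pe inv h1 l (inv d)).extendSubtype ⟨stepW inv d w.1, h3.1⟩ = w := by
        rw [Equiv.extendSubtype_apply_of_mem (pe inv h1 l (inv d)) ⟨stepW inv d w.1, h3.1⟩ h3.2.1]
        apply Subtype.ext
        exact h3.2.2
      simp only [hσ, if_neg h]
      have h5 : (pe inv h1 l (inv d)).extendSubtype⁻¹ w = ⟨stepW inv d w.1, h3.1⟩ := by
        rw [Equiv.Perm.inv_eq_iff_eq]
        exact h4.symm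
      rw [h5]
  refine ⟨Equiv.Perm (RW inv l), inferInstance, Fintype.ofFinite _, σ, hinv, ?_⟩
  have key : ∀ w : List D, w.length ≤ l → w.IsChain (fun a b => b ≠ inv a) →
      ((w.map σ).prod ⟨[], by simp⟩).1 = w := by
    intro w
    induction w with
    | nil => intro _ _; rfl
    | cons e w ih =>
      intro hl hc
      have hl' : w.length < l := by simpa using hl
      have hc' : w.IsChain (fun a b => b ≠ inv a) ∧ w.head? ≠ some (inv e) := by
        cases w with
        | nil => simp
        | cons b w' =>
          rw [List.isChain_cons_cons] at hc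
          exact ⟨hc.2, fun h => hc.1 (by simpa using h)⟩
      have h3 := ih hl'.le hc'.1
      rw [List.map_cons, List.prod_cons, Equiv.Perm.mul_apply]
      rw [hact e _ (by rw [h3]; exact Or.inr ⟨hl', hc'.2⟩), h3]
      simp [stepW, hc'.2]
  intro w hw hl hc h
  have h3 := key w hl hc
  rw [h] at h3
  exact hw h3.symm

end

end Pool.Agent.Helper72.SQ
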