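import Mathlib

set_option autoImplicit false

namespace Pool.Agent.Helper72.SQ

/-- Half-edges `h` with colours `c h`; the number of half-edges of colour `k` is the number of those of
the opposite colour `bar k`. Then two copies of the half-edges can be matched, without fixed points, so
that matched half-edges have opposite colours. -/
theorem exists_matching {H K : Type} [Finite H] (c : H → K) (bar : K → K)
    (hbar : ∀ k, bar (bar k) = k)
    (hc : ∀ k, Nat.card {h // c h = k} = Nat.card {h // c h = bar k}) :
    ∃ m : H × Bool → H × Bool, (∀ x, m (m x) = x) ∧ (∀ x, m x ≠ x) ∧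
      ∀ x, c (m x).1 = bar (c x.1) := by
  have he : ∀ k, Nonempty ({h // c h = k} ≃ {h // c h = bar k}) := fun k =>
    Finite.card_eq.1 (hc k)
  set e := fun k => (he k).some
  set π : H → H := fun h => (e (c h) ⟨h, rfl⟩).1 with hπ
  have hcol : ∀ h, c (π h) = bar (c h) := fun h => (e (c h) ⟨h, rfl⟩).2
  have hinj : Function.Injective π := by
    intro h h' hh
    have h1 : c h = c h' := by
      have := congrArg c hh
      rw [hcol, hcol] at this
      have h2 := congrArg bar this
      rwa [hbar, hbar] at h2
    have h3 : ∀ k (x y : {h // c h = k}), (e k x).1 = (e k y).1 → x = y := fun k x y hxy =>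
      (e k).injective (Subtype.ext hxy)
    have h4 : (e (c h) ⟨h, rfl⟩).1 = (e (c h) ⟨h', h1.symm⟩).1 := by
      have h5 : ∀ k (hk : c h' = k), (e (c h') ⟨h', rfl⟩).1 = (e k ⟨h', hk⟩).1 := by
        rintro k rfl
        rfl
      exact hh.trans (h5 _ h1.symm)
    exact congrArg Subtype.val (h3 _ _ _ h4)
  have hbij : Function.Bijective π := Finite.injective_iff_bijective.1 hinj
  set ρ := Equiv.ofBijective π hbij with hρ
  have hρc : ∀ h, c (ρ.symm h) = bar (c h) := by
    intro h
    have h1 := hcol (ρ.symm h)
    have h2 : π (ρ.symm h) = h := ρ.apply_symm_apply h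
    rw [h2] at h1
    rw [h1, hbar]
  refine ⟨fun x => if x.2 then (ρ.symm x.1, false) else (ρ x.1, true), ?_, ?_, ?_⟩
  · rintro ⟨h, b⟩
    cases b <;> simp
  · rintro ⟨h, b⟩
    cases b <;> simp
  · rintro ⟨h, b⟩
    cases b
    · exact hcol h
    · exact hρc h

end Pool.Agent.Helper72.SQ
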