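import Mathlib
import Pool.Agent.Helper72.SQ.Grp
import Pool.Agent.Helper72.SQ.Match

set_option autoImplicit false

namespace Pool.Agent.Helper72.SQ

open Finset

section

variable {T K : Type} [Fintype T] [Fintype K]

/-- The base vertices. -/
abbrev BV (h : T → ℕ) : Type := Σ t : T, Fin (h t)

/-- The half-edges at the base vertices. -/
abbrev HE (μ : T → K → ℕ) (h : T → ℕ) : Type := Σ v : BV h, Σ k : K, Fin (μ v.1 k)

theorem card_HE (μ : T → K → ℕ) (h : T → ℕ) (k : K) :
    Nat.card {x : HE μ h // x.2.1 = k} = ∑ t, h t * μ t k := by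
  have e : {x : HE μ h // x.2.1 = k} ≃ Σ v : BV h, Fin (μ v.1 k) :=
    { toFun := fun x => ⟨x.1.1, Fin.cast (by rw [x.2]) x.1.2.2⟩
      invFun := fun x => ⟨⟨x.1, k, x.2⟩, rfl⟩
      left_inv := by
        rintro ⟨⟨v, k', i⟩, rfl⟩
        rfl
      right_inv := by
        rintro ⟨v, i⟩
        rfl }
  rw [Nat.card_congr e, Nat.card_eq_fintype_card, Fintype.card_sigma]
  simp only [Fintype.card_fin]
  rw [Fintype.sum_sigma]
  simp

/-- The dart `d` leads from `x` to `y` in the cover. -/
def Leads {V0 D G : Type} [Group G] (vert : D → V0) (m : D → D) (s : D → G) (x : V0 × G) (d : D)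
    (y : V0 × G) : Prop :=
  vert d = x.1 ∧ y = (vert (m d), x.2 * s d)

theorem leads_symm {V0 D G : Type} [Group G] {vert : D → V0} {m : D → D} {s : D → G}
    (hm : ∀ d, m (m d) = d) (hs : ∀ d, s (m d) = (s d)⁻¹) {x y : V0 × G} {d : D}
    (h : Leads vert m s x d y) : Leads vert m s y (m d) x := by
  obtain ⟨h1, rfl⟩ := h
  refine ⟨rfl, ?_⟩
  rw [hm, hs]
  ext
  · exact h1.symm
  · simp

theorem leads_prod {V0 D G : Type} [Group G] {vert : D → V0} {m : D → D} {s : D → G}
    (f : ℕ → V0 × G) (d : ℕ → D) (n : ℕ) (h : ∀ i < n, Leads vert m s (f i) (d i) (f (i + 1))) :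
    (f n).2 = (f 0).2 * (((List.range n).map d).map s).prod := by
  induction n with
  | zero => simp
  | succ n ih =>
    have h1 := ih fun i hi => h i (by omega)
    have h2 := (h n (by omega)).2
    rw [h2]
    show (f n).2 * s (d n) = _
    rw [h1, List.range_succ]
    simp [mul_assoc]

/-- **Finite covers.** A balanced vector of vertex types is realized by a finite graph without short
closed non-backtracking walks. -/
theorem exists_cover [Nonempty K] (μ : T → K → ℕ) (bar : K → K) (hbar : ∀ k, bar (bar k) = k)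
    (h : T → ℕ) (hh : h ≠ 0) (hb : ∀ k, ∑ t, h t * μ t k = ∑ t, h t * μ t (bar k)) (l : ℕ) :
    ∃ (V : Type) (_ : Finite V) (_ : Nonempty V) (A : SimpleGraph V) (t : V → T) (κ : V → V → K),
      (∀ x, h (t x) ≠ 0) ∧ (∀ x y, A.Adj x y → κ y x = bar (κ x y)) ∧
      (∀ x k, Nat.card {y // A.Adj x y ∧ κ x y = k} = μ (t x) k) ∧
      (∀ n, 1 ≤ n → n ≤ l → ∀ f : ℕ → V, (∀ i < n, A.Adj (f i) (f (i + 1))) →
        (∀ i, i + 2 ≤ n → f i ≠ f (i + 2)) → f 0 ≠ f n) := by
  classical
  obtain ⟨m, hm1, hm2, hm3⟩ := exists_matching (fun x : HE μ h => x.2.1) bar hbar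
    (fun k => by rw [card_HE, card_HE]; exact hb k)
  obtain ⟨G, gG, fG, s, hs, hred⟩ := exists_group m hm1 hm2 (l + 2)
  set vert : HE μ h × Bool → BV h × Bool := fun d => (d.1.1, d.2) with hvert
  have hone : ∀ d, s d ≠ 1 := by
    intro d hd
    exact hred [d] (by simp) (by simp) (by simp) (by simpa using hd)
  have huniq : ∀ d d', s d = s d' → d = d' := by
    intro d d' hd
    by_contra hne
    refine hred [d, m d'] (by simp) (by simp) ?_ (by simp [hs, hd])
    rw [List.isChain_cons_cons]
    exact ⟨fun h1 => hne (by rw [← hm1 d, ← h1, hm1]), by simp⟩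
  set A : SimpleGraph ((BV h × Bool) × G) :=
    { Adj := fun x y => ∃ d, Leads vert m s x d y
      symm := ⟨fun x y ⟨d, hd⟩ => ⟨m d, leads_symm hm1 hs hd⟩⟩
      loopless := ⟨fun x ⟨d, hd⟩ => hone d (by
        have h1 := congrArg Prod.snd hd.2
        simpa using h1)⟩ } with hA
  have hAdj : ∀ x y, A.Adj x y ↔ ∃ d, Leads vert m s x d y := fun x y => Iff.rfl
  have hdu : ∀ x y d d', Leads vert m s x d y → Leads vert m s x d' y → d = d' := by
    rintro x y d d' ⟨_, h2⟩ ⟨_, h4⟩
    apply huniq
    have h5 := congrArg Prod.snd (h2.symm.trans h4)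
    exact mul_left_cancel h5
  set κ : (BV h × Bool) × G → (BV h × Bool) × G → K := fun x y =>
    if hd : ∃ d, Leads vert m s x d y then hd.choose.1.2.1 else Classical.arbitrary K with hκ
  have hκd : ∀ x y d, Leads vert m s x d y → κ x y = d.1.2.1 := by
    intro x y d hd
    have hex : ∃ d, Leads vert m s x d y := ⟨d, hd⟩
    simp only [hκ, dif_pos hex]
    rw [hdu x y _ _ hex.choose_spec hd]
  refine ⟨(BV h × Bool) × G, inferInstance, ?_, A, fun x => x.1.1.1, κ, ?_, ?_, ?_, ?_⟩
  · obtain ⟨t, ht⟩ : ∃ t, h t ≠ 0 := by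
      by_contra hcon
      push Not at hcon
      exact hh (funext hcon)
    exact ⟨((⟨t, ⟨0, Nat.pos_of_ne_zero ht⟩⟩, true), 1)⟩
  · rintro ⟨⟨⟨t, i⟩, b⟩, g⟩ h0
    have := i.2
    simp only at h0
    omega
  · rintro x y ⟨d, hd⟩
    rw [hκd x y d hd, hκd y x (m d) (leads_symm hm1 hs hd)]
    exact hm3 d
  · rintro ⟨⟨v, b⟩, g⟩ k
    have e : {y // A.Adj ((v, b), g) y ∧ κ ((v, b), g) y = k} ≃ Fin (μ v.1 k) :=
      (Equiv.ofBijective (fun i : Fin (μ v.1 k) =>
        (⟨(vert (m (⟨v, k, i⟩, b)), g * s (⟨v, k, i⟩, b)), ⟨(⟨v, k, i⟩, b), rfl, rfl⟩,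
          hκd _ _ (⟨v, k, i⟩, b) ⟨rfl, rfl⟩⟩ :
          {y // A.Adj ((v, b), g) y ∧ κ ((v, b), g) y = k})) (by
        constructor
        · intro i j hij
          have h1 := congrArg (fun z => z.1.2) hij
          have h2 := huniq _ _ (mul_left_cancel h1)
          simpa using h2
        · rintro ⟨y, ⟨d, hd⟩, hk⟩
          have hk2 : d.1.2.1 = k := (hκd _ _ d hd).symm.trans hk
          obtain ⟨⟨v', k', i⟩, b'⟩ := d
          obtain ⟨h1, h2⟩ := hd
          simp only [hvert, Prod.mk.injEq] at h1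
          obtain ⟨rfl, rfl⟩ := h1
          have hk' : k' = k := hk2
          subst hk'
          exact ⟨i, Subtype.ext h2.symm⟩)).symm
    rw [Nat.card_congr e]
    simp
  · intro n hn hnl f hf hnb hcl
    obtain ⟨d0, hd0⟩ := hf 0 (by omega)
    set d : ℕ → HE μ h × Bool := fun i =>
      if hd : ∃ d, Leads vert m s (f i) d (f (i + 1)) then hd.choose else d0 with hd
    have hdl : ∀ i < n, Leads vert m s (f i) (d i) (f (i + 1)) := by
      intro i hi
      have hex : ∃ d, Leads vert m s (f i) d (f (i + 1)) := hf i hi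
      simp only [hd, dif_pos hex]
      exact hex.choose_spec
    have h1 := leads_prod f d n hdl
    rw [← hcl] at h1
    have h2 : (((List.range n).map d).map s).prod = 1 := by
      have h3 : (f 0).2 * 1 = (f 0).2 * (((List.range n).map d).map s).prod := by
        rw [mul_one]
        exact h1
      exact (mul_left_cancel h3).symm
    refine hred ((List.range n).map d) ?_ ?_ ?_ h2
    · intro h3
      have := congrArg List.length h3
      simp at this
      omega
    · simp
      omega
    · rw [List.isChain_iff_getElem]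
      intro i hi h4
      simp only [List.length_map, List.length_range] at hi
      simp only [List.getElem_map, List.getElem_range] at h4
      have h5 := hdl i (by omega)
      have h6 := hdl (i + 1) (by omega)
      rw [h4] at h6
      have h7 := leads_symm hm1 hs h5
      have h8 : f (i + 1 + 1) = f i := h6.2.trans h7.2.symm
      exact hnb i (by omega) h8.symm

end

end Pool.Agent.Helper72.SQ
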