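import Mathlib
import Pool.Agent.Helper37.GH.Main
import Pool.Agent.Helper79.TL.Pos

set_option autoImplicit false

/-!
# SQ: all structures that can be pumped with a bounded period
-/

namespace Pool.Agent.Helper72.SQ

open FirstOrder FirstOrder.Language
open Pool.Agent.Helper32.Pump
open Pool.Agent.Helper79.TL (gaifman meet bdry TreeWidthLE Tame pump_tame cutChain_mono)
open Pool.Agent.Helper37.GH (TreePart pump_tree)

/-- The structure `A` has a chain of `C + 1` nested cuts of index at most `r`, or a set `X` of at least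
`C * (b + 1)` points, where `b` is the number of the points outside `X` with neighbours in `X`, such
that the edges of the Gaifman graph that meet `X` form a graph of tree-width at most `k` or of at most
`(1 + 1 / (2 * C)) * |X|` edges, or such that every point at distance at most `C` from a point of `X`
has degree at most `d` and lies on no cycle of length at most `C`. -/
def TameX (L : FirstOrder.Language.{0, 0}) (k r d C : ℕ) (A : Type) [L.Structure A] : Prop :=
  HasCutChain L A r C ∨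
    ∃ X : Set A, C * ((bdry (gaifman L A) X).ncard + 1) ≤ X.ncard ∧
      (TreeWidthLE k (meet (gaifman L A) X) ∨
        2 * C * (meet (gaifman L A) X).edgeSet.ncard ≤ (2 * C + 1) * X.ncard ∨
        ∀ x ∈ X, ∀ y, (gaifman L A).edist x y ≤ C → ((gaifman L A).neighborSet y).ncard ≤ d ∧
          ∀ w : (gaifman L A).Walk y y, w.IsCycle → C < w.length)

/-- the points of `X` with neighbours outside `X` are neighbours of the points outside -/
theorem inner_le {V : Type} [Finite V] (G : SimpleGraph V) (X : Set V) (d : ℕ)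
    (hd : ∀ x ∈ X, ∀ y, G.edist x y ≤ 1 → (G.neighborSet y).ncard ≤ d) :
    {x | x ∈ X ∧ ∃ z, z ∉ X ∧ G.Adj x z}.ncard ≤ d * (bdry G X).ncard := by
  classical
  have h1 : {x | x ∈ X ∧ ∃ z, z ∉ X ∧ G.Adj x z} ⊆
      ⋃ z ∈ (Set.toFinite (bdry G X)).toFinset, G.neighborSet z := by
    rintro x ⟨hx, z, hz, hxz⟩
    simp only [Set.Finite.mem_toFinset, Set.mem_iUnion]
    exact ⟨z, ⟨hz, x, hx, hxz⟩, hxz.symm⟩
  calc {x | x ∈ X ∧ ∃ z, z ∉ X ∧ G.Adj x z}.ncard
      ≤ (⋃ z ∈ (Set.toFinite (bdry G X)).toFinset, G.neighborSet z).ncard :=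
        Set.ncard_le_ncard h1 (Set.toFinite _)
    _ ≤ ∑ z ∈ (Set.toFinite (bdry G X)).toFinset, (G.neighborSet z).ncard :=
        Finset.set_ncard_biUnion_le _ _
    _ ≤ ∑ z ∈ (Set.toFinite (bdry G X)).toFinset, d := by
        refine Finset.sum_le_sum fun z hz => ?_
        rw [Set.Finite.mem_toFinset] at hz
        obtain ⟨_, x, hx, hxz⟩ := hz
        exact hd x hx z (by rw [SimpleGraph.edist_eq_one_iff_adj.2 hxz])
    _ = d * (bdry G X).ncard := by
        rw [Finset.sum_const, smul_eq_mul, mul_comm, Set.ncard_eq_toFinset_card _ (Set.toFinite _)]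

theorem pump_mix {L : FirstOrder.Language.{0, 0}} (hL : ∀ n, IsEmpty (L.Functions n))
    (hf : Finite (Σ n, L.Relations n)) (φ : L.Sentence) (k r d : ℕ) :
    ∃ C p : ℕ, 0 < C ∧ 0 < p ∧ ∀ (A : Type) [L.Structure A] [Finite A], φ.Realize A →
      TameX L k r d C A → ∀ j : ℕ, ∃ (M' : Type) (_ : L.Structure M'),
        Finite M' ∧ Nat.card M' = Nat.card A + j * p ∧ φ.Realize M' := by
  obtain ⟨C₁, p₁, hC₁, hp₁, h₁⟩ := pump_tame hL hf φ k r
  obtain ⟨C₂, p₂, hC₂, hp₂, h₂⟩ := pump_tree hL hf φ d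
  refine ⟨C₁ + C₂ * (d + 1), p₁ * p₂, by omega, Nat.mul_pos hp₁ hp₂, ?_⟩
  set C := C₁ + C₂ * (d + 1) with hC
  intro A _ _ hφ hA j
  have h3 : Tame L k r C₁ A → ∃ (M' : Type) (_ : L.Structure M'),
      Finite M' ∧ Nat.card M' = Nat.card A + j * (p₁ * p₂) ∧ φ.Realize M' := by
    intro hT
    obtain ⟨M', sM', hf', hc, hM'⟩ := h₁ A hφ hT (j * p₂)
    exact ⟨M', sM', hf', by rw [hc]; ring, hM'⟩
  rcases hA with hA | ⟨X, hX, hT | hT | hT⟩
  · exact h3 (Or.inl (cutChain_mono le_rfl (by omega) hA))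
  · refine h3 (Or.inr ⟨X, ?_, Or.inl hT⟩)
    exact (Nat.mul_le_mul_right _ (by omega)).trans hX
  · refine h3 (Or.inr ⟨X, ?_, Or.inr ?_⟩)
    · exact (Nat.mul_le_mul_right _ (by omega)).trans hX
    · set e := (meet (gaifman L A) X).edgeSet.ncard with he
      have h4 : C * (2 * C₁ * e) ≤ C * ((2 * C₁ + 1) * X.ncard) := by
        calc C * (2 * C₁ * e) = C₁ * (2 * C * e) := by ring
          _ ≤ C₁ * ((2 * C + 1) * X.ncard) := Nat.mul_le_mul_left _ hT
          _ ≤ C * ((2 * C₁ + 1) * X.ncard) := by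
              have h5 : C₁ * (2 * C + 1) ≤ C * (2 * C₁ + 1) := by
                have : C₁ ≤ C := by omega
                nlinarith
              calc C₁ * ((2 * C + 1) * X.ncard) = C₁ * (2 * C + 1) * X.ncard := by ring
                _ ≤ C * (2 * C₁ + 1) * X.ncard := Nat.mul_le_mul_right _ h5
                _ = C * ((2 * C₁ + 1) * X.ncard) := by ring
      exact Nat.le_of_mul_le_mul_left h4 (by omega)
  · have hCC : C₂ ≤ C := by
      have : C₂ * 1 ≤ C₂ * (d + 1) := Nat.mul_le_mul_left _ (by omega)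
      omega
    have h4 : TreePart (gaifman L A) d C₂ X := by
      constructor
      · have h5 := inner_le (gaifman L A) X d fun x hx y hy => (hT x hx y (hy.trans (by
          exact_mod_cast (by omega : 1 ≤ C)))).1
        calc C₂ * ({x | x ∈ X ∧ ∃ z, z ∉ X ∧ (gaifman L A).Adj x z}.ncard + 1)
            ≤ C₂ * (d * (bdry (gaifman L A) X).ncard + 1) := Nat.mul_le_mul_left _ (by omega)
          _ ≤ C₂ * ((d + 1) * ((bdry (gaifman L A) X).ncard + 1)) := by
              refine Nat.mul_le_mul_left _ ?_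
              nlinarith [Nat.zero_le ((bdry (gaifman L A) X).ncard)]
          _ = C₂ * (d + 1) * ((bdry (gaifman L A) X).ncard + 1) := by ring
          _ ≤ C * ((bdry (gaifman L A) X).ncard + 1) := Nat.mul_le_mul_right _ (by omega)
          _ ≤ X.ncard := hX
      · intro x hx y hy
        obtain ⟨h5, h6⟩ := hT x hx y (hy.trans (by exact_mod_cast hCC))
        exact ⟨h5, fun w hw => lt_of_le_of_lt hCC (h6 w hw)⟩
    obtain ⟨M', sM', hf', hc, hM'⟩ := h₂ A hφ ⟨X, h4⟩ (j * p₁)
    exact ⟨M', sM', hf', by rw [hc]; ring, hM'⟩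

end Pool.Agent.Helper72.SQ
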