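import Mathlib

set_option autoImplicit false

namespace Pool.Agent.Helper72.SQ

private theorem lcmUpto_dvd2 {a b : ℕ} (h : a ≤ b) : Nat.lcmUpto a ∣ Nat.lcmUpto b := by
  unfold Nat.lcmUpto
  refine Finset.lcm_dvd fun x hx => ?_
  refine Finset.dvd_lcm (f := id) ?_
  rw [Finset.mem_Icc] at hx ⊢
  exact ⟨hx.1, hx.2.trans h⟩

private theorem dvd_lcmUpto2 {a b : ℕ} (h1 : 1 ≤ a) (h : a ≤ b) : a ∣ Nat.lcmUpto b := by
  unfold Nat.lcmUpto
  exact Finset.dvd_lcm (f := id) (Finset.mem_Icc.2 ⟨h1, h⟩)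

/-- Mixed steps: every large `n ∈ S` starts a progression of the fixed difference `p` in `S`, or one of
some difference `k` that can also be continued downwards. Then `S` is closed under `n ↦ n + D` from
some point on. -/
theorem steps_mix (S : Set ℕ) (n₀ p : ℕ) (hp : 0 < p)
    (h : ∀ n ∈ S, n₀ ≤ n → (∀ j, n + p * j ∈ S) ∨ ∃ k, 1 ≤ k ∧ (∀ j, n + k * j ∈ S) ∧
      ∀ j ≤ Nat.lcmUpto k, k * j + k ≤ n ∧ n - k * j ∈ S) :
    ∃ D, 0 < D ∧ ∀ n ∈ S, n₀ + p ≤ n → n + D ∈ S := by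
  set N := n₀ + p with hN
  have hD0 : 0 < Nat.lcmUpto (N + 1) := Nat.lcmUpto_pos _
  have key : ∀ n, n ∈ S → N ≤ n → ∃ κ, 1 ≤ κ ∧ κ ≤ N + 1 ∧ ∀ j, n + κ * j ∈ S := by
    intro n
    induction n using Nat.strong_induction_on with
    | _ n ih =>
      intro hn hn0
      rcases h n hn (by omega) with h1 | ⟨k, hk1, hk2, hk3⟩
      · exact ⟨p, hp, by omega, h1⟩
      by_cases hk : k ≤ N + 1
      · exact ⟨k, hk1, hk, hk2⟩
      · push Not at hk
        have hle : Nat.lcmUpto (N + 1) ≤ Nat.lcmUpto k :=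
          Nat.le_of_dvd (Nat.lcmUpto_pos _) (lcmUpto_dvd2 hk.le)
        obtain ⟨h1, h2⟩ := hk3 _ hle
        have hpos : 0 < k * Nat.lcmUpto (N + 1) := Nat.mul_pos (by omega) hD0
        obtain ⟨κ, hκ1, hκ2, hκ3⟩ := ih (n - k * Nat.lcmUpto (N + 1)) (by omega) h2 (by omega)
        refine ⟨κ, hκ1, hκ2, fun j => ?_⟩
        obtain ⟨c, hc⟩ := dvd_lcmUpto2 hκ1 hκ2
        have h3 := hκ3 (k * c + j)
        have h4 : κ * (k * c + j) = k * Nat.lcmUpto (N + 1) + κ * j := by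
          rw [hc]
          ring
        rw [h4] at h3
        have h5 : n - k * Nat.lcmUpto (N + 1) + (k * Nat.lcmUpto (N + 1) + κ * j) = n + κ * j := by
          omega
        rwa [h5] at h3
  refine ⟨Nat.lcmUpto (N + 1), hD0, fun n hn hn0 => ?_⟩
  obtain ⟨κ, hκ1, hκ2, hκ3⟩ := key n hn hn0
  obtain ⟨c, hc⟩ := dvd_lcmUpto2 hκ1 hκ2
  rw [hc]
  exact hκ3 c

end Pool.Agent.Helper72.SQ
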