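import Mathlib

set_option autoImplicit false

namespace Pool.Agent.Helper72.SQ

open Finset

variable {ι J : Type} [Fintype ι] [Fintype J]

/-- The solutions of the system with slack variables. -/
def Sol (a : J → ι → ℤ) (v : ι ⊕ (J ⊕ J) → ℕ) : Prop :=
  ∀ j, ∑ i, a j i * (v (Sum.inl i) : ℤ) + (v (Sum.inr (Sum.inl j)) : ℤ)
    - (v (Sum.inr (Sum.inr j)) : ℤ) = 0

/-- The total slack. -/
def slack (v : ι ⊕ (J ⊕ J) → ℕ) : ℕ := ∑ k : J ⊕ J, v (Sum.inr k)

theorem exists_bound (a : J → ι → ℤ) : ∃ B : ℕ, ∀ v : ι ⊕ (J ⊕ J) → ℕ, Sol a v → v ≠ 0 →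
    ∃ u, Sol a u ∧ u ≠ 0 ∧ u ≤ v ∧ ∑ k, u k ≤ B := by
  classical
  set P : (ι ⊕ (J ⊕ J) → ℕ) → Prop := fun v => Sol a v ∧ v ≠ 0 with hP
  have hfin : {v | Minimal P v}.Finite :=
    (setOfPred_minimal_antichain P).finite_of_partiallyWellOrderedOn
      (Set.isPWO_of_wellQuasiOrderedLE _)
  obtain ⟨B, hB⟩ := (hfin.image fun v => ∑ k, v k).bddAbove
  refine ⟨B, fun v hv hv0 => ?_⟩
  obtain ⟨u, hu, hmin⟩ := exists_minimal_le_of_wellFoundedLT P v ⟨hv, hv0⟩
  exact ⟨u, hmin.prop.1, hmin.prop.2, hu, hB ⟨u, hmin, rfl⟩⟩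

theorem sol_sub {a : J → ι → ℤ} {v u : ι ⊕ (J ⊕ J) → ℕ} (hv : Sol a v) (hu : Sol a u)
    (h : u ≤ v) : Sol a (fun k => v k - u k) := by
  intro j
  have h1 := hv j
  have h2 := hu j
  have h3 : ∑ i, a j i * ((v (Sum.inl i) - u (Sum.inl i) : ℕ) : ℤ) =
      ∑ i, a j i * (v (Sum.inl i) : ℤ) - ∑ i, a j i * (u (Sum.inl i) : ℤ) := by
    rw [← Finset.sum_sub_distrib]
    refine Finset.sum_congr rfl fun i _ => ?_
    rw [Nat.cast_sub (h _)]
    ring
  show ∑ i, a j i * ((v (Sum.inl i) - u (Sum.inl i) : ℕ) : ℤ) + _ - _ = 0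
  rw [h3, Nat.cast_sub (h _), Nat.cast_sub (h _)]
  linarith

theorem exists_exact (a : J → ι → ℤ) : ∃ B : ℕ, ∀ (n : ℕ) (v : ι ⊕ (J ⊕ J) → ℕ), ∑ k, v k = n →
    Sol a v → B * slack v < ∑ k, v k →
    ∃ u, Sol a u ∧ u ≠ 0 ∧ u ≤ v ∧ ∑ k, u k ≤ B ∧ slack u = 0 := by
  obtain ⟨B, hB⟩ := exists_bound a
  refine ⟨B, fun n => ?_⟩
  induction n using Nat.strong_induction_on with
  | _ n ih =>
    intro v hn hv hs
    have hv0 : v ≠ 0 := by
      rintro rfl
      simp at hs
    obtain ⟨u, h1, h2, h3, h4⟩ := hB v hv hv0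
    by_cases h5 : slack u = 0
    · exact ⟨u, h1, h2, h3, h4, h5⟩
    · have hsum : ∑ k, (v k - u k) + ∑ k, u k = ∑ k, v k := by
        rw [← Finset.sum_add_distrib]
        exact Finset.sum_congr rfl fun k _ => Nat.sub_add_cancel (h3 k)
      have hsl : slack (fun k => v k - u k) + slack u = slack v := by
        unfold slack
        rw [← Finset.sum_add_distrib]
        exact Finset.sum_congr rfl fun k _ => Nat.sub_add_cancel (h3 _)
      have hpos : 0 < ∑ k, u k := by
        rcases Nat.eq_zero_or_pos (∑ k, u k) with h | h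
        · exfalso
          apply h2
          funext k
          exact (Finset.sum_eq_zero_iff.1 h) k (Finset.mem_univ _)
        · exact h
      have hlt : B * slack (fun k => v k - u k) < ∑ k, (v k - u k) := by
        have h6 : B * slack (fun k => v k - u k) + B * slack u = B * slack v := by
          rw [← Nat.mul_add, hsl]
        have h7 : B ≤ B * slack u := Nat.le_mul_of_pos_right _ (Nat.pos_of_ne_zero h5)
        omega
      obtain ⟨w, w1, w2, w3, w4, w5⟩ := ih (∑ k, (v k - u k)) (by omega)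
        (fun k => v k - u k) rfl (sol_sub hv h1 h3) hlt
      exact ⟨w, w1, w2, fun k => (w3 k).trans (Nat.sub_le _ _), w4, w5⟩

/-- A nonnegative vector that solves a homogeneous system up to an error `E`, and that is large
compared with `E`, contains a bounded nonzero exact solution. -/
theorem exists_balanced (a : J → ι → ℤ) : ∃ B : ℕ, ∀ (T : ι → ℕ) (E : ℕ),
    (∀ j, |∑ i, a j i * (T i : ℤ)| ≤ E) → B * (E + 1) < ∑ i, T i →
    ∃ h : ι → ℕ, h ≤ T ∧ h ≠ 0 ∧ ∑ i, h i ≤ B ∧ ∀ j, ∑ i, a j i * (h i : ℤ) = 0 := by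
  classical
  obtain ⟨B, hB⟩ := exists_exact a
  refine ⟨B * (Fintype.card J + 1), fun T E hE hT => ?_⟩
  set f : J → ℤ := fun j => ∑ i, a j i * (T i : ℤ) with hf
  set v : ι ⊕ (J ⊕ J) → ℕ := Sum.elim T (Sum.elim (fun j => (-(f j)).toNat) (fun j => (f j).toNat))
    with hv
  have hsol : Sol a v := by
    intro j
    show f j + ((-(f j)).toNat : ℤ) - ((f j).toNat : ℤ) = 0
    omega
  have hslack : slack v ≤ Fintype.card J * E := by
    unfold slack
    rw [Fintype.sum_sum_type, ← Finset.sum_add_distrib]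
    calc ∑ j, (v (Sum.inr (Sum.inl j)) + v (Sum.inr (Sum.inr j))) ≤ ∑ _j : J, E := by
          refine Finset.sum_le_sum fun j _ => ?_
          show (-(f j)).toNat + (f j).toNat ≤ E
          have := hE j
          rw [abs_le] at this
          have h1 : -(E : ℤ) ≤ f j := this.1
          have h2 : f j ≤ E := this.2
          omega
      _ = Fintype.card J * E := by simp
  have hbig : B * slack v < ∑ k, v k := by
    have h1 : ∑ i, T i ≤ ∑ k, v k := by
      rw [Fintype.sum_sum_type]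
      exact Nat.le_add_right _ _
    calc B * slack v ≤ B * (Fintype.card J * E) := Nat.mul_le_mul_left _ hslack
      _ ≤ B * (Fintype.card J + 1) * (E + 1) := by
          rw [Nat.mul_assoc]
          exact Nat.mul_le_mul_left _ (Nat.mul_le_mul (Nat.le_succ _) (Nat.le_succ _))
      _ < ∑ i, T i := hT
      _ ≤ _ := h1
  obtain ⟨u, h1, h2, h3, h4, h5⟩ := hB _ v rfl hsol hbig
  have h6 : ∀ k : J ⊕ J, u (Sum.inr k) = 0 := fun k =>
    (Finset.sum_eq_zero_iff.1 h5) k (Finset.mem_univ _)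
  refine ⟨fun i => u (Sum.inl i), fun i => h3 (Sum.inl i), ?_, ?_, fun j => ?_⟩
  · intro h7
    apply h2
    funext k
    rcases k with i | k
    · exact congrFun h7 i
    · exact h6 k
  · calc ∑ i, u (Sum.inl i) ≤ ∑ k, u k := by
          rw [Fintype.sum_sum_type]
          exact Nat.le_add_right _ _
      _ ≤ B := h4
      _ ≤ B * (Fintype.card J + 1) := Nat.le_mul_of_pos_right _ (Nat.succ_pos _)
  · have := h1 j
    rw [h6, h6] at this
    simpa using this

end Pool.Agent.Helper72.SQ
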