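import Mathlib
import Pool.Agent.Helper37.GH.EncTP

set_option autoImplicit false

/-!
# SQ: the encoded structures, with the outer boundary
-/

namespace Pool.Agent.Helper72.SQ

open FirstOrder FirstOrder.Language
open Pool.Agent.Helper6.ED Pool.Agent.Helper6.ED.EncCount
open Pool.Agent.Helper79.TL (gaifman bdry)
open Pool.Agent.Helper37.GH (TreePart treePart_U)

/-- the outer boundary is covered by the neighbours of the inner boundary -/
theorem outer_le {V : Type} [Finite V] (G : SimpleGraph V) (X : Set V) (d : ℕ)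
    (hd : ∀ x ∈ X, (G.neighborSet x).ncard ≤ d) :
    (bdry G X).ncard ≤ d * {x | x ∈ X ∧ ∃ z, z ∉ X ∧ G.Adj x z}.ncard := by
  classical
  set I := {x | x ∈ X ∧ ∃ z, z ∉ X ∧ G.Adj x z} with hI
  have h1 : bdry G X ⊆ ⋃ x ∈ (Set.toFinite I).toFinset, G.neighborSet x := by
    rintro z ⟨hz, x, hx, hxz⟩
    simp only [Set.Finite.mem_toFinset, Set.mem_iUnion]
    exact ⟨x, ⟨hx, z, hz, hxz⟩, hxz⟩
  calc (bdry G X).ncard
      ≤ (⋃ x ∈ (Set.toFinite I).toFinset, G.neighborSet x).ncard :=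
        Set.ncard_le_ncard h1 (Set.toFinite _)
    _ ≤ ∑ x ∈ (Set.toFinite I).toFinset, (G.neighborSet x).ncard :=
        Finset.set_ncard_biUnion_le _ _
    _ ≤ ∑ x ∈ (Set.toFinite I).toFinset, d := by
        refine Finset.sum_le_sum fun x hx => ?_
        rw [Set.Finite.mem_toFinset] at hx
        exact hd x hx.1
    _ = d * I.ncard := by
        rw [Finset.sum_const, smul_eq_mul, mul_comm, Set.ncard_eq_toFinset_card _ (Set.toFinite _)]

theorem path_part {s : Kn} {D : ℕ} {U : Type} [Finite U] [(LU s D).Structure U]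
    (hA : (toRw s D U).Ax) {C : ℕ} (hC : 0 < C) (hD : 12 * C ≤ D) (κ₀ : s.ι) :
    ∃ X : Set U, C * ((bdry (gaifman (LU s D) U) X).ncard + 1) ≤ X.ncard ∧
      ∀ x ∈ X, ∀ y, (gaifman (LU s D) U).edist x y ≤ C →
        ((gaifman (LU s D) U).neighborSet y).ncard ≤ 2 ∧
          ∀ w : (gaifman (LU s D) U).Walk y y, w.IsCycle → C < w.length := by
  obtain ⟨X, h1, h2⟩ := treePart_U hA (C := 2 * C) (by omega) (by omega) κ₀
  refine ⟨X, ?_, fun x hx y hy => ?_⟩
  · have h3 := outer_le (gaifman (LU s D) U) X 2 fun x hx => (h2 x hx x (by simp)).1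
    calc C * ((bdry (gaifman (LU s D) U) X).ncard + 1)
        ≤ C * (2 * {x | x ∈ X ∧ ∃ z, z ∉ X ∧ (gaifman (LU s D) U).Adj x z}.ncard + 1) :=
          Nat.mul_le_mul_left _ (by omega)
      _ ≤ 2 * C * ({x | x ∈ X ∧ ∃ z, z ∉ X ∧ (gaifman (LU s D) U).Adj x z}.ncard + 1) := by
          rw [mul_comm 2 C, mul_assoc]
          exact Nat.mul_le_mul_left _ (by omega)
      _ ≤ X.ncard := h1
  · obtain ⟨h3, h4⟩ := h2 x hx y (hy.trans (by exact_mod_cast (by omega : C ≤ 2 * C)))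
    exact ⟨h3, fun w hw => lt_of_le_of_lt (by omega) (h4 w hw)⟩

end Pool.Agent.Helper72.SQ
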